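import Mathlib

/-!
# The residual order of a t.d.l.c.s.c. group with well-defined residual rank

If the residual rank of a totally disconnected locally compact second countable group is
well-defined, then the residual order is a partial order.
-/

set_option autoImplicit false

namespace Pool.Agent.Results.MP_4e651d_al.ResidualOrder

open Topology

universe u

variable (G : Type u) [Group G] [TopologicalSpace G]

/-- `CG G K` says that `K` is a closed compactly generated subgroup of `G`, i.e. that `K` belongs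
to `𝒦(G)`. -/
def CG (K : Subgroup G) : Prop :=
  IsClosed (K : Set G) ∧ ∃ C : Set G, IsCompact C ∧ Subgroup.closure C = K

/-- The discrete residual `Res_G(K)`: the intersection of all open subgroups `O` of `G` with
`kO = Ok` for every `k ∈ K`. -/
def Res (K : Subgroup G) : Subgroup G :=
  ⨅ (O : Subgroup G) (_ : IsOpen (O : Set G))
    (_ : ∀ k ∈ K, (fun x => k * x) '' (O : Set G) = (fun x => x * k) '' (O : Set G)), O

/-- The residual order. -/
def Le (K L : Subgroup G) : Prop := K ≤ Res G L ∨ K = L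

/-- The strict residual order. -/
def Lt (K L : Subgroup G) : Prop := Le G K L ∧ K ≠ L

/-- The residual hierarchy `𝒦_α(G)`. -/
def hier (α : Ordinal.{0}) : Set (Subgroup G) :=
  if α = 0 then {⊥}
  else if α = 1 then {K | CG G K ∧ Res G K = ⊥}
  else {K | CG G K ∧ ∀ L, CG G L → Lt G L K → ∃ β, ∃ _ : β < α, L ∈ hier β}
termination_by α

/-- The residual rank of `G` is well-defined: every member of `𝒦(G)` belongs to `𝒦_α(G)` for some
countable ordinal `α`. -/
def WellDefinedRank : Prop := ∀ K, CG G K → ∃ α < Ordinal.omega 1, K ∈ hier G α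

variable {G}

theorem mem_Res {K : Subgroup G} {x : G} : x ∈ Res G K ↔ ∀ O : Subgroup G, IsOpen (O : Set G) →
    (∀ k ∈ K, (fun x => k * x) '' (O : Set G) = (fun x => x * k) '' (O : Set G)) → x ∈ O := by
  simp only [Res, Subgroup.mem_iInf]

theorem Res_mono {K L : Subgroup G} (h : K ≤ L) : Res G K ≤ Res G L := by
  intro x hx
  rw [mem_Res] at hx ⊢
  intro O hO hL
  exact hx O hO (fun k hk => hL k (h hk))

theorem Res_le_of_le_Res {K L : Subgroup G} (h : K ≤ Res G L) : Res G K ≤ Res G L := by
  intro x hx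
  rw [mem_Res] at hx ⊢
  intro O hO hL
  refine hx O hO (fun k hk => ?_)
  have hkO : k ∈ O := mem_Res.mp (h hk) O hO hL
  ext y
  constructor
  · rintro ⟨z, hz, rfl⟩
    exact ⟨k * z * k⁻¹, O.mul_mem (O.mul_mem hkO hz) (O.inv_mem hkO), by simp⟩
  · rintro ⟨z, hz, rfl⟩
    exact ⟨k⁻¹ * (z * k), O.mul_mem (O.inv_mem hkO) (O.mul_mem hz hkO), by simp⟩

theorem Le_trans {K L M : Subgroup G} (h1 : Le G K L) (h2 : Le G L M) : Le G K M := by
  rcases h2 with h2 | rfl
  · rcases h1 with h1 | rfl
    · exact Or.inl (h1.trans (Res_le_of_le_Res h2))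
    · exact Or.inl h2
  · exact h1

/-- A form of van Dantzig's theorem. -/
theorem exists_open_subgroup [IsTopologicalGroup G] [T2Space G] [LocallyCompactSpace G]
    [TotallyDisconnectedSpace G] {x : G} (hx : x ≠ 1) :
    ∃ O : Subgroup G, IsOpen (O : Set G) ∧ x ∉ O := by
  obtain ⟨C, hC, hC1⟩ := exists_compact_mem_nhds (1 : G)
  have hU : (interior C ∩ {x}ᶜ) ∈ 𝓝 (1 : G) :=
    Filter.inter_mem (interior_mem_nhds.mpr hC1) (isOpen_compl_singleton.mem_nhds hx.symm)
  obtain ⟨W, hW, hW1, hWU⟩ := (loc_compact_Haus_tot_disc_of_zero_dim (H := G)).mem_nhds_iff.mp hU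
  have hWc : IsCompact W := hC.of_isClosed_subset hW.isClosed
    (fun y hy => interior_subset (hWU hy).1)
  -- the tube lemma
  have key : ∃ T ∈ 𝓝 (1 : G), ∀ w ∈ W, ∀ t ∈ T, w * t ∈ W := by
    refine hWc.induction_on (p := fun S => ∃ T ∈ 𝓝 (1 : G), ∀ w ∈ S, ∀ t ∈ T, w * t ∈ W)
      ⟨Set.univ, Filter.univ_mem, by simp⟩ ?_ ?_ ?_
    · rintro S S' hSS' ⟨T, hT, h⟩
      exact ⟨T, hT, fun w hw => h w (hSS' hw)⟩
    · rintro S S' ⟨T, hT, h⟩ ⟨T', hT', h'⟩
      refine ⟨T ∩ T', Filter.inter_mem hT hT', ?_⟩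
      rintro w (hw | hw) t ht
      · exact h w hw t ht.1
      · exact h' w hw t ht.2
    · intro w hw
      have h1 : (fun p : G × G => p.1 * p.2) ⁻¹' W ∈ 𝓝 ((w, 1) : G × G) := by
        apply continuous_mul.continuousAt.preimage_mem_nhds
        simpa using hW.isOpen.mem_nhds hw
      rw [nhds_prod_eq, Filter.mem_prod_iff] at h1
      obtain ⟨S, hS, T, hT, hST⟩ := h1
      exact ⟨S, mem_nhdsWithin_of_mem_nhds hS, T, hT, fun a ha t ht => hST (Set.mk_mem_prod ha ht)⟩
  obtain ⟨T, hT, hWT⟩ := key
  have hT' : T⁻¹ ∈ 𝓝 (1 : G) := by simpa using inv_mem_nhds_one G hT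
  have hWcl : ∀ t ∈ Subgroup.closure (T ∩ T⁻¹), ∀ w ∈ W, w * t ∈ W := by
    intro t ht
    induction ht using Subgroup.closure_induction with
    | mem t ht => intro w hw; exact hWT w hw t ht.1
    | one => intro w hw; simpa using hw
    | mul s t _ _ hs ht => intro w hw; rw [← mul_assoc]; exact ht _ (hs _ hw)
    | inv t ht' hs =>
      -- `T ∩ T⁻¹` is symmetric, so we use an induction on the inverse
      intro w hw
      have h2 : ∀ t ∈ Subgroup.closure (T ∩ T⁻¹), ∀ w ∈ W, w * t⁻¹ ∈ W := by
        intro t ht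
        induction ht using Subgroup.closure_induction_right with
        | one => intro w hw; simpa using hw
        | mul_right s _ t ht hs =>
          intro w hw
          rw [mul_inv_rev, ← mul_assoc]
          exact hs _ (hWT w hw _ ht.2)
        | mul_inv_cancel s _ t ht hs =>
          intro w hw
          rw [mul_inv_rev, inv_inv, ← mul_assoc]
          exact hs _ (hWT w hw _ ht.1)
      exact h2 t ht' w hw
  refine ⟨Subgroup.closure (T ∩ T⁻¹), ?_, ?_⟩
  · apply Subgroup.isOpen_of_mem_nhds (g := 1)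
    exact Filter.mem_of_superset (Filter.inter_mem hT hT') Subgroup.subset_closure
  · intro hxO
    have := hWcl x hxO 1 hW1
    rw [one_mul] at this
    exact (hWU this).2 rfl

theorem Res_bot [IsTopologicalGroup G] [T2Space G] [LocallyCompactSpace G]
    [TotallyDisconnectedSpace G] : Res G ⊥ = ⊥ := by
  rw [eq_bot_iff]
  intro x hx
  rw [Subgroup.mem_bot]
  by_contra hne
  obtain ⟨O, hO, hxO⟩ := exists_open_subgroup hne
  refine hxO (mem_Res.mp hx O hO ?_)
  intro k hk
  rw [Subgroup.mem_bot] at hk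
  subst hk
  simp

theorem hier_zero : hier G 0 = {⊥} := by
  rw [hier]; simp

theorem hier_one : hier G 1 = {K | CG G K ∧ Res G K = ⊥} := by
  rw [hier]; simp

theorem mem_hier_of {α : Ordinal.{0}} (h0 : α ≠ 0) (h1 : α ≠ 1) {K : Subgroup G} :
    K ∈ hier G α ↔ CG G K ∧ ∀ L, CG G L → Lt G L K → ∃ β, ∃ _ : β < α, L ∈ hier G β := by
  rw [hier]; simp [h0, h1]

theorem no_two_cycle [IsTopologicalGroup G] [T2Space G] [LocallyCompactSpace G]
    [TotallyDisconnectedSpace G] (α : Ordinal.{0}) :
    ∀ K L : Subgroup G, CG G K → CG G L → K ∈ hier G α → Lt G K L → Lt G L K → False := by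
  induction α using WellFoundedLT.induction with
  | ind α ih =>
    intro K L hK hL hKα hKL hLK
    by_cases h0 : α = 0
    · rw [h0, hier_zero, Set.mem_singleton_iff] at hKα
      rcases hLK with ⟨h | h, hne⟩
      · rw [hKα, Res_bot, le_bot_iff] at h
        exact hne (h.trans hKα.symm)
      · exact hne h
    · by_cases h1 : α = 1
      · rw [h1, hier_one] at hKα
        rcases hLK with ⟨h | h, hne⟩
        · rw [hKα.2, le_bot_iff] at h
          rcases hKL with ⟨h' | h', hne'⟩
          · rw [h, Res_bot, le_bot_iff] at h'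
            exact hne' (h'.trans h.symm)
          · exact hne' h'
        · exact hne h
      · rw [mem_hier_of h0 h1] at hKα
        obtain ⟨β, hβ, hLβ⟩ := hKα.2 L hL hLK
        exact ih β hβ L K hL hK hLβ hLK hKL

/-- If the residual rank of a t.d.l.c.s.c. group `G` is well-defined, then the residual order is a
partial order on the set of closed compactly generated subgroups of `G`. -/
theorem result (G : Type u) [Group G] [TopologicalSpace G] [IsTopologicalGroup G] [T2Space G]
    [LocallyCompactSpace G] [SecondCountableTopology G] [TotallyDisconnectedSpace G]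
    (hG : WellDefinedRank G) :
    IsPartialOrder {K : Subgroup G // CG G K} (fun K L => Le G K.1 L.1) where
  refl K := Or.inr rfl
  trans _ _ _ h1 h2 := Le_trans h1 h2
  antisymm K L h1 h2 := by
    by_contra hne
    have hne' : K.1 ≠ L.1 := fun h => hne (Subtype.ext h)
    obtain ⟨α, _, hα⟩ := hG K.1 K.2
    exact no_two_cycle α K.1 L.1 K.2 L.2 hα ⟨h1, hne'⟩ ⟨h2, hne'.symm⟩

end Pool.Agent.Results.MP_4e651d_al.ResidualOrder
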